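import Mathlib

/-!
Carry-free additions in base `p` and digitwise domination.
-/

namespace Q33.Gcd

/-- adding `a` and `b` in base `p` involves no carry -/
def NC (p a b : ℕ) : Prop := ∀ i, a % p ^ i + b % p ^ i < p ^ i

theorem not_dvd_choose_iff {p : ℕ} (hp : p.Prime) (a b : ℕ) :
    ¬ p ∣ Nat.choose (b + a) a ↔ NC p a b := by
  have hpos : Nat.choose (b + a) a ≠ 0 := (Nat.choose_pos (Nat.le_add_left a b)).ne'
  have key := Nat.factorization_choose' (p := p) (n := b) (k := a)
    (b := Nat.log p (b + a) + 1) hp (Nat.lt_succ_self _)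
  have h1 : ¬ p ∣ Nat.choose (b + a) a ↔ (Nat.choose (b + a) a).factorization p = 0 := by
    constructor
    · intro h
      exact Nat.factorization_eq_zero_of_not_dvd h
    · intro h hd
      have := (hp.dvd_iff_one_le_factorization hpos).1 hd
      omega
  rw [h1, key, Finset.card_eq_zero, Finset.filter_eq_empty_iff]
  constructor
  · intro h i
    rcases Nat.eq_zero_or_pos i with rfl | hi
    · simp [Nat.mod_one]
    · by_cases hi2 : i < Nat.log p (b + a) + 1
      · have := h (Finset.mem_Ico.2 ⟨hi, hi2⟩)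
        omega
      · have hlt : b + a < p ^ i := by
          have : b + a < p ^ (Nat.log p (b + a) + 1) := Nat.lt_pow_succ_log_self hp.one_lt _
          exact this.trans_le (Nat.pow_le_pow_right hp.pos (by omega))
        rw [Nat.mod_eq_of_lt (show a < p ^ i by omega), Nat.mod_eq_of_lt (show b < p ^ i by omega)]
        omega
  · intro h i _
    have := h i
    omega

/-- `r` is dominated digitwise by `c` -/
def Dom (p r c : ℕ) : Prop := ∀ j, r % p ^ j ≤ c % p ^ j

theorem dom_refl (p c : ℕ) : Dom p c c := fun _ => le_rfl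

theorem dom_zero (p c : ℕ) : Dom p 0 c := fun j => by simp

theorem dom_digit {p x c : ℕ} (hc : c < p) (h : x ≤ c) : Dom p x c := by
  intro j
  rcases Nat.eq_zero_or_pos j with rfl | hj
  · simp [Nat.mod_one]
  · have : p ≤ p ^ j := Nat.le_self_pow (by omega) p
    rw [Nat.mod_eq_of_lt (by omega), Nat.mod_eq_of_lt (by omega)]
    exact h

theorem dom_pow_mul {p : ℕ} (m r c : ℕ) (h : Dom p r (c / p ^ m)) :
    Dom p (p ^ m * r) c := by
  intro j
  rcases le_total j m with hj | hj
  · have : p ^ j ∣ p ^ m * r := (pow_dvd_pow p hj).mul_right _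
    rw [Nat.mod_eq_zero_of_dvd this]
    exact Nat.zero_le _
  · obtain ⟨l, rfl⟩ := Nat.exists_eq_add_of_le hj
    rw [pow_add, Nat.mul_mod_mul_left, Nat.mod_mul]
    exact (Nat.mul_le_mul_left _ (h l)).trans (Nat.le_add_left _ _)

theorem dom_add {p : ℕ} (hp : 0 < p) (x r c : ℕ) (hx : x ≤ c % p) (h : Dom p r (c / p)) :
    Dom p (x + p * r) c := by
  intro j
  have hcp : c % p < p := Nat.mod_lt _ hp
  rcases Nat.eq_zero_or_pos j with rfl | hj
  · simp [Nat.mod_one]
  · obtain ⟨l, rfl⟩ : ∃ l, j = l + 1 := ⟨j - 1, by omega⟩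
    rw [pow_succ', Nat.mod_mul, Nat.mod_mul]
    have e1 : (x + p * r) % p = x := by
      rw [Nat.add_mul_mod_self_left, Nat.mod_eq_of_lt (by omega)]
    have e2 : (x + p * r) / p = r := by
      rw [Nat.add_mul_div_left _ _ hp, Nat.div_eq_of_lt (by omega)]
      omega
    rw [e1, e2]
    exact Nat.add_le_add hx (Nat.mul_le_mul_left _ (h l))

theorem dom_mk {p : ℕ} (hp : 0 < p) (i x R c : ℕ) (hx : x ≤ c / p ^ i % p)
    (hR : Dom p R (c / p ^ (i + 1))) : Dom p (p ^ i * (x + p * R)) c := by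
  refine dom_pow_mul i _ _ (dom_add hp _ _ _ hx ?_)
  rwa [Nat.div_div_eq_div_mul, ← pow_succ]

/-- carry-free addition of `n` and `T`, read off from the residue of `T` modulo `p^(S+1)` -/
theorem nc_of_dom {p : ℕ} (hp : 0 < p) (S n T : ℕ) (hn : n < p ^ (S + 1))
    (h : Dom p (T % p ^ (S + 1)) (p ^ (S + 1) - 1 - n)) : NC p n T := by
  intro i
  have hQ : 0 < p ^ (S + 1) := Nat.pow_pos hp
  rcases le_total i (S + 1) with hi | hi
  · have h1 := h i
    have hd : p ^ i ∣ p ^ (S + 1) := pow_dvd_pow p hi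
    rw [Nat.mod_mod_of_dvd _ hd] at h1
    have hpi : 0 < p ^ i := Nat.pow_pos hp
    have h2 : (p ^ (S + 1) - 1 - n) % p ^ i + n % p ^ i = p ^ i - 1 := by
      obtain ⟨e, he⟩ := hd
      have hn1 : n = p ^ i * (n / p ^ i) + n % p ^ i := (Nat.div_add_mod n (p ^ i)).symm
      have hlt : n % p ^ i < p ^ i := Nat.mod_lt _ hpi
      have hlt2 : n / p ^ i < e := by
        apply Nat.div_lt_of_lt_mul
        rw [← he]; exact hn
      have e3 : p ^ (S + 1) - 1 - n = (p ^ i - 1 - n % p ^ i) + p ^ i * (e - 1 - n / p ^ i) := by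
        obtain ⟨f, hf⟩ : ∃ f, e = n / p ^ i + 1 + f := ⟨e - (n / p ^ i + 1), by omega⟩
        have hf2 : e - 1 - n / p ^ i = f := by omega
        rw [hf2, he]
        have : p ^ i * e = p ^ i * (n / p ^ i) + p ^ i + p ^ i * f := by
          conv_lhs => rw [hf]
          ring
        omega
      have e4 : p ^ i - 1 - n % p ^ i < p ^ i := by
        have := Nat.sub_le (p ^ i - 1) (n % p ^ i)
        omega
      rw [e3, Nat.add_mul_mod_self_left, Nat.mod_eq_of_lt e4]
      exact Nat.sub_add_cancel (by omega)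
    omega
  · obtain ⟨l, rfl⟩ := Nat.exists_eq_add_of_le hi
    have hn' : n < p ^ (S + 1 + l) := hn.trans_le (Nat.pow_le_pow_right hp (by omega))
    rw [Nat.mod_eq_of_lt hn']
    have h1 := h (S + 1)
    rw [Nat.mod_mod, Nat.mod_eq_of_lt (show p ^ (S + 1) - 1 - n < p ^ (S + 1) by omega)] at h1
    rw [pow_add, Nat.mod_mul]
    have h3 : T / p ^ (S + 1) % p ^ l < p ^ l := Nat.mod_lt _ (Nat.pow_pos hp)
    have h4 : p ^ (S + 1) * (T / p ^ (S + 1) % p ^ l) + p ^ (S + 1) ≤ p ^ (S + 1) * p ^ l := by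
      calc p ^ (S + 1) * (T / p ^ (S + 1) % p ^ l) + p ^ (S + 1)
          = p ^ (S + 1) * (T / p ^ (S + 1) % p ^ l + 1) := by ring
        _ ≤ _ := Nat.mul_le_mul_left _ h3
    omega

end Q33.Gcd
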