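import Mathlib
import Pool.Agent.Q33.Gcd.Basic

/-!
Existence of a multiple `t * K`, `1 ≤ t ≤ n`, whose addition to `n` in base `p` is carry-free.
-/

namespace Q33.Gcd

/-- an interval `[1, g]` with `g ≤ p - 2` is stable under multiplication by a unit `w` only if
`w = 1` -/
theorem top_digit {p g w : ℕ} (hp : p.Prime) (hg : 1 ≤ g) (hgp : g + 1 < p) (hw : ¬ p ∣ w)
    (h : ∀ x, 1 ≤ x → x ≤ g → x * w % p ≤ g) : w % p = 1 := by
  have : Fact p.Prime := ⟨hp⟩
  set A := Finset.Icc 1 g with hA
  have hmap : ∀ x ∈ A, x * w % p ∈ A := by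
    intro x hx
    rw [hA, Finset.mem_Icc] at hx ⊢
    refine ⟨?_, h x hx.1 hx.2⟩
    by_contra hc
    have h0 : x * w % p = 0 := by omega
    rcases (hp.dvd_mul).1 (Nat.dvd_of_mod_eq_zero h0) with hd | hd
    · exact absurd (Nat.le_of_dvd (by omega) hd) (by omega)
    · exact hw hd
  have hinj : Set.InjOn (fun x => x * w % p) (A : Set ℕ) := by
    intro x hx y hy hxy
    rw [hA, Finset.mem_coe, Finset.mem_Icc] at hx hy
    have h1 : x * w ≡ y * w [MOD p] := hxy
    have hcop : Nat.Coprime p w := (Nat.Prime.coprime_iff_not_dvd hp).2 hw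
    have h2 : x ≡ y [MOD p] := Nat.ModEq.cancel_right_of_coprime hcop h1
    have h3 : x % p = y % p := h2
    rwa [Nat.mod_eq_of_lt (by omega), Nat.mod_eq_of_lt (by omega)] at h3
  have himg : A.image (fun x => x * w % p) = A := by
    apply Finset.eq_of_subset_of_card_le
    · intro y hy
      obtain ⟨x, hx, rfl⟩ := Finset.mem_image.1 hy
      exact hmap x hx
    · rw [Finset.card_image_of_injOn hinj]
  have hsum : ∑ x ∈ A, x * w % p = ∑ x ∈ A, x := by
    conv_rhs => rw [← himg]
    rw [Finset.sum_image hinj]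
  have hcast : (w : ZMod p) * ∑ x ∈ A, (x : ZMod p) = ∑ x ∈ A, (x : ZMod p) := by
    have := congrArg (Nat.cast : ℕ → ZMod p) hsum
    rw [Nat.cast_sum, Nat.cast_sum] at this
    refine Eq.trans ?_ this
    rw [Finset.mul_sum]
    refine Finset.sum_congr rfl fun x _ => ?_
    rw [ZMod.natCast_mod, Nat.cast_mul, mul_comm]
  have hG : 2 * ∑ x ∈ A, x = g * (g + 1) := by
    have h1 : ∑ x ∈ A, x = ∑ x ∈ Finset.range (g + 1), x := by
      rw [Finset.sum_range_succ']
      rw [hA, Finset.range_eq_Ico]
      rw [Finset.sum_Ico_add' (fun x => x) 0 g 1]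
      simp only [Nat.zero_add, add_zero]
      rfl
    rw [h1, mul_comm, Finset.sum_range_id_mul_two]
    simp [mul_comm]
  have hG' : (2 : ZMod p) * ∑ x ∈ A, (x : ZMod p) = (g : ZMod p) * ((g + 1 : ℕ) : ZMod p) := by
    have := congrArg (Nat.cast : ℕ → ZMod p) hG
    push_cast at this ⊢
    exact this
  have hne : ∑ x ∈ A, (x : ZMod p) ≠ 0 := by
    intro h0
    rw [h0, mul_zero] at hG'
    rcases mul_eq_zero.1 hG'.symm with h1 | h1
    · rw [ZMod.natCast_eq_zero_iff] at h1
      exact absurd (Nat.le_of_dvd (by omega) h1) (by omega)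
    · rw [ZMod.natCast_eq_zero_iff] at h1
      exact absurd (Nat.le_of_dvd (by omega) h1) (by omega)
  have hw1 : (w : ZMod p) = ((1 : ℕ) : ZMod p) := by
    have := mul_right_cancel₀ hne (hcast.trans (one_mul _).symm)
    rw [this]; simp
  rw [ZMod.natCast_eq_natCast_iff'] at hw1
  rw [hw1, Nat.mod_eq_of_lt (by omega)]

section
variable {p S c w : ℕ}

theorem mod_pow_mul {a i : ℕ} (hi : i ≤ S + 1) :
    p ^ i * a % p ^ (S + 1) = p ^ i * (a % p ^ (S + 1 - i)) := by
  rw [← Nat.mul_mod_mul_left, ← pow_add]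
  congr 2
  omega

theorem claim_top (hp : p.Prime) (hc : c + p ^ S < p ^ (S + 1)) (hw : ¬ p ∣ w)
    (H : ∀ r, r < p ^ (S + 1) → Dom p r c → (r * w) % p ^ (S + 1) ≤ c) (z : ℕ)
    (hz : z ≤ c / p ^ S) : p ^ S * z * w ≡ p ^ S * z [MOD p ^ (S + 1)] := by
  rcases Nat.eq_zero_or_pos z with rfl | hz0
  · simp [Nat.ModEq]
  set g := c / p ^ S with hg
  have hpS : 0 < p ^ S := Nat.pow_pos hp.pos
  have hgp : g + 1 < p := by
    have h1 : p ^ S * g ≤ c := Nat.mul_div_le c _
    have h2 : p ^ S * (g + 1) < p ^ S * p := by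
      rw [← pow_succ]; rw [mul_add, mul_one]; omega
    exact Nat.lt_of_mul_lt_mul_left h2
  have key : w % p = 1 := by
    refine top_digit hp (by omega : 1 ≤ g) hgp hw ?_
    intro x hx1 hxg
    have hr : p ^ S * x < p ^ (S + 1) := by
      rw [pow_succ]; exact Nat.mul_lt_mul_of_pos_left (by omega) hpS
    have := H (p ^ S * x) hr (dom_pow_mul S x c (dom_digit (by omega) hxg))
    rw [mul_assoc, mod_pow_mul (by omega)] at this
    have e : S + 1 - S = 1 := by omega
    rw [e, pow_one] at this
    rw [hg]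
    exact (Nat.le_div_iff_mul_le hpS).2 (by rwa [mul_comm])
  have h1 : z * w ≡ z [MOD p] := by
    have : w ≡ 1 [MOD p] := by
      show w % p = 1 % p
      rw [key, Nat.mod_eq_of_lt hp.one_lt]
    simpa using this.mul_left z
  rw [mul_assoc, pow_succ]
  exact Nat.ModEq.mul_left' _ h1

theorem claim (hp : p.Prime) (hc : c + p ^ S < p ^ (S + 1)) (hw : ¬ p ∣ w)
    (H : ∀ r, r < p ^ (S + 1) → Dom p r c → (r * w) % p ^ (S + 1) ≤ c) (m : ℕ) (hm : m ≤ S + 1) :
    p ^ (S + 1 - m) * (c / p ^ (S + 1 - m)) * w ≡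
      p ^ (S + 1 - m) * (c / p ^ (S + 1 - m)) [MOD p ^ (S + 1)] := by
  have hQ : 0 < p ^ (S + 1) := Nat.pow_pos hp.pos
  have hcQ : c < p ^ (S + 1) := by omega
  induction m with
  | zero =>
    rw [Nat.sub_zero, Nat.div_eq_of_lt hcQ]
    simp [Nat.ModEq]
  | succ m ih =>
    rcases Nat.eq_zero_or_pos m with rfl | hm0
    · have e : S + 1 - (0 + 1) = S := by omega
      rw [e]
      exact claim_top hp hc hw H _ le_rfl
    have ih := ih (by omega)
    obtain ⟨i, hi, hi2⟩ : ∃ i, S + 1 - (m + 1) = i ∧ S + 1 - m = i + 1 := ⟨S + 1 - (m + 1), rfl, by omega⟩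
    rw [hi]
    rw [hi2] at ih
    have hiS : i < S := by omega
    have hpi : 0 < p ^ i := Nat.pow_pos hp.pos
    set d := c / p ^ i % p with hd
    have hdp : d < p := Nat.mod_lt _ hp.pos
    have hsplit : p ^ i * (c / p ^ i) = p ^ (i + 1) * (c / p ^ (i + 1)) + p ^ i * d := by
      rw [pow_succ, ← Nat.div_div_eq_div_mul, hd]
      conv_lhs => rw [← Nat.div_add_mod (c / p ^ i) p]
      ring
    have hlow : c % p ^ (i + 1) < p ^ i * (d + 1) := by
      rw [pow_succ, Nat.mod_mul]
      have : c % p ^ i < p ^ i := Nat.mod_lt _ hpi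
      rw [← hd, mul_add, mul_one]
      omega
    have hcC : c = p ^ (i + 1) * (c / p ^ (i + 1)) + c % p ^ (i + 1) := (Nat.div_add_mod _ _).symm
    -- the key bound
    have hy : ∀ x, x ≤ d → p ^ i * x * w % p ^ (S + 1) ≤ c % p ^ (i + 1) := by
      intro x hx
      set y := p ^ i * x * w % p ^ (S + 1) with hydef
      have hyQ : y < p ^ (S + 1) := Nat.mod_lt _ hQ
      by_contra hcon
      push Not at hcon
      set C := p ^ (i + 1) * (c / p ^ (i + 1)) with hC
      -- adding an element `R` with `w * p^(i+1) R ≡ p^(i+1) R`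
      have hadd : ∀ R, Dom p R (c / p ^ (i + 1)) →
          p ^ (i + 1) * R * w ≡ p ^ (i + 1) * R [MOD p ^ (S + 1)] →
          p ^ i * (x + p * R) < p ^ (S + 1) → y + p ^ (i + 1) * R < p ^ (S + 1) →
          y + p ^ (i + 1) * R ≤ c := by
        intro R hR1 hR2 hR3 hR4
        have h1 := H _ hR3 (dom_mk hp.pos i x R c hx hR1)
        have h2 : p ^ i * (x + p * R) * w ≡ y + p ^ (i + 1) * R [MOD p ^ (S + 1)] := by
          have e : p ^ i * (x + p * R) * w = p ^ i * x * w + p ^ (i + 1) * R * w := by ring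
          rw [e]
          refine Nat.ModEq.add ?_ hR2
          exact (Nat.mod_modEq _ _).symm
        have h3 : p ^ i * (x + p * R) * w % p ^ (S + 1) = y + p ^ (i + 1) * R := by
          rw [h2, Nat.mod_eq_of_lt hR4]
        omega
      have hyc : y ≤ c := by
        have h0 := hadd 0 (dom_zero _ _) (by simp [Nat.ModEq]) ?_ (by simpa using hyQ)
        · simpa using h0
        · have : p ^ i * (x + p * 0) ≤ c := by
            have h5 : p ^ i * (x + p * 0) ≤ p ^ i * (c / p ^ i) := by
              apply Nat.mul_le_mul_left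
              have : c / p ^ i % p ≤ c / p ^ i := Nat.mod_le _ _
              omega
            exact h5.trans (Nat.mul_div_le _ _)
          omega
      have hpS : 0 < p ^ S := Nat.pow_pos hp.pos
      have hp2 : p ^ i * x + C ≤ c := by
        have : p ^ i * x ≤ p ^ i * d := Nat.mul_le_mul_left _ hx
        have h5 : p ^ i * (c / p ^ i) ≤ c := Nat.mul_div_le _ _
        omega
      set Z := c + 1 - y with hZ
      set g := c / p ^ S with hg
      set z := (Z + p ^ S - 1) / p ^ S with hz
      have hz1 : Z ≤ p ^ S * z := by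
        have h5 : Z + p ^ S - 1 < p ^ S * (z + 1) := by
          rw [hz]; exact Nat.lt_mul_div_succ _ hpS
        rw [mul_add, mul_one] at h5
        omega
      have hz2 : p ^ S * z ≤ Z + p ^ S - 1 := Nat.mul_div_le _ _
      have hgc : p ^ S * g ≤ c := Nat.mul_div_le _ _
      have hgc2 : c < p ^ S * (g + 1) := Nat.lt_mul_div_succ _ hpS
      have hgp : g < p := by
        have h2 : p ^ S * g < p ^ S * p := by
          rw [← pow_succ]; omega
        exact Nat.lt_of_mul_lt_mul_left h2
      obtain ⟨e, he⟩ : ∃ e, S = i + 1 + e := ⟨S - (i + 1), by omega⟩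
      rcases le_or_gt z g with hzg | hzg
      · -- use `p^S * z`
        have hR : p ^ (i + 1) * (p ^ e * z) = p ^ S * z := by
          rw [← mul_assoc, ← pow_add, ← he]
        have hdom : Dom p (p ^ e * z) (c / p ^ (i + 1)) := by
          apply dom_pow_mul
          rw [Nat.div_div_eq_div_mul, ← pow_add, ← he]
          exact dom_digit hgp hzg
        have hzC : p ^ S * z ≤ C := by
          have : p ^ S * z ≤ p ^ S * g := Nat.mul_le_mul_left _ hzg
          have h7 : p ^ S * g ≤ C := by
            have h8 : g = c / p ^ (i + 1) / p ^ e := by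
              rw [Nat.div_div_eq_div_mul, ← pow_add, ← he]
            have h9 : p ^ S * g = p ^ (i + 1) * (p ^ e * (c / p ^ (i + 1) / p ^ e)) := by
              rw [← h8, ← mul_assoc, ← pow_add, ← he]
            rw [h9, hC]
            exact Nat.mul_le_mul_left _ (Nat.mul_div_le _ _)
          omega
        have h6 := hadd (p ^ e * z) hdom (by rw [hR]; exact claim_top hp hc hw H z hzg) (by
          have : p ^ i * (x + p * (p ^ e * z)) = p ^ i * x + p ^ (i + 1) * (p ^ e * z) := by ring
          rw [this, hR]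
          omega) (by rw [hR]; omega)
        rw [hR] at h6
        omega
      · -- use `C`
        have h8 : p ^ S * (g + 1) ≤ p ^ S * z := Nat.mul_le_mul_left _ hzg
        have h9 : p ^ S * g < Z := by
          rw [mul_add, mul_one] at h8
          omega
        have h6 := hadd (c / p ^ (i + 1)) (dom_refl _ _) ih (by
          have : p ^ i * (x + p * (c / p ^ (i + 1))) = p ^ i * x + p ^ (i + 1) * (c / p ^ (i + 1)) := by
            ring
          rw [this]
          omega) (by
            rw [mul_add, mul_one] at hgc2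
            omega)
        omega
    rcases Nat.eq_zero_or_pos d with hd0 | hd0
    · rw [hsplit, hd0, mul_zero, add_zero]
      exact ih
    · -- `w ≡ 1` modulo `p ^ (S + 1 - i)`
      set M := p ^ (S + 1 - i) with hM
      have hMp : p * p ≤ M := by
        rw [hM, ← sq]
        exact Nat.pow_le_pow_right hp.pos (by omega)
      have hxw : ∀ x, x ≤ d → x * w % M ≤ d := by
        intro x hx
        have h1 := hy x hx
        rw [mul_assoc, mod_pow_mul (by omega)] at h1
        have h2 : p ^ i * (x * w % M) < p ^ i * (d + 1) := lt_of_le_of_lt h1 hlow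
        exact Nat.lt_succ_iff.1 (Nat.lt_of_mul_lt_mul_left h2)
      have hpM : p ∣ M := by
        rw [hM]
        exact dvd_pow_self p (by omega)
      have hw0 : w % M ≠ 0 := by
        intro h0
        exact hw (hpM.trans (Nat.dvd_of_mod_eq_zero h0))
      have h1 := hxw 1 hd0
      rw [one_mul] at h1
      have h2 := hxw d le_rfl
      have h3 : d * w % M = d * (w % M) := by
        rw [Nat.mul_mod, Nat.mod_eq_of_lt (show d < M by nlinarith), Nat.mod_eq_of_lt]
        nlinarith
      rw [h3] at h2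
      have h4 : w % M = 1 := by
        by_contra h5
        have : 2 ≤ w % M := by omega
        nlinarith
      have h5 : w ≡ 1 [MOD M] := by
        show w % M = 1 % M
        rw [h4, Nat.mod_eq_of_lt (by nlinarith [hp.two_le])]
      have h6 : p ^ i * (d * w) ≡ p ^ i * d [MOD p ^ (S + 1)] := by
        have h7 : d * w ≡ d [MOD M] := by simpa using h5.mul_left d
        have h8 : p ^ (S + 1) = p ^ i * M := by
          rw [hM, ← pow_add]; congr 1; omega
        rw [h8]
        exact Nat.ModEq.mul_left' _ h7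
      rw [hsplit, add_mul]
      refine Nat.ModEq.add ih ?_
      rw [mul_assoc]
      exact h6

end

end Q33.Gcd
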